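import Mathlib

/-!
Counting lemmas for integer vectors (HD block C, used by FLB and PTH).
-/

set_option autoImplicit false

namespace Pool.Agent.H37.HD

open scoped Pointwise

lemma fib {α β : Type*} [DecidableEq β] (s : Finset α) (t : Finset β) (f : α → β) (M : ℝ)
    (hf : ∀ a ∈ s, f a ∈ t)
    (h : ∀ b ∈ t, ((s.filter (fun a => f a = b)).card : ℝ) ≤ M) :
    (s.card : ℝ) ≤ t.card * M := by
  rw [Finset.card_eq_sum_card_fiberwise (f := f) (t := t) (by intro a ha; exact hf a ha)]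
  push_cast
  calc ∑ b ∈ t, ((s.filter (fun a => f a = b)).card : ℝ) ≤ ∑ _b ∈ t, M := Finset.sum_le_sum h
    _ = t.card * M := by simp

lemma cnt {ι : Type*} [Fintype ι] (X : Finset (ι → ℤ)) (lo hi : ι → ℝ) (M : ℝ)
    (hM0 : 0 ≤ M)
    (h : ∀ x ∈ X, ∀ i, lo i ≤ (x i : ℝ) ∧ (x i : ℝ) ≤ hi i)
    (hM : ∀ i, hi i - lo i + 1 ≤ M) : (X.card : ℝ) ≤ M ^ Fintype.card ι := by
  classical
  have hsub : X ⊆ Fintype.piFinset (fun i => Finset.Icc ⌈lo i⌉ ⌊hi i⌋) := by
    intro x hx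
    rw [Fintype.mem_piFinset]
    intro i
    rw [Finset.mem_Icc]
    exact ⟨Int.ceil_le.2 (h x hx i).1, Int.le_floor.2 (h x hx i).2⟩
  have h1 : X.card ≤ ∏ i, (Finset.Icc ⌈lo i⌉ ⌊hi i⌋).card := by
    rw [← Fintype.card_piFinset]
    exact Finset.card_le_card hsub
  have h2 : (X.card : ℝ) ≤ ∏ i : ι, ((Finset.Icc ⌈lo i⌉ ⌊hi i⌋).card : ℝ) := by
    exact_mod_cast h1
  refine h2.trans ?_
  calc ∏ i : ι, ((Finset.Icc ⌈lo i⌉ ⌊hi i⌋).card : ℝ) ≤ ∏ _i : ι, M := by
        refine Finset.prod_le_prod (fun i _ => Nat.cast_nonneg _) (fun i _ => ?_)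
        rw [Int.card_Icc]
        have h3 : (((⌊hi i⌋ + 1 - ⌈lo i⌉).toNat : ℕ) : ℝ) =
            ((max (⌊hi i⌋ + 1 - ⌈lo i⌉) 0 : ℤ) : ℝ) := by
          have := Int.toNat_eq_max (⌊hi i⌋ + 1 - ⌈lo i⌉)
          exact_mod_cast congrArg (fun z : ℤ => (z : ℝ)) this
        rw [h3]
        rcases le_total (⌊hi i⌋ + 1 - ⌈lo i⌉) 0 with h4 | h4
        · rw [max_eq_right h4]; simpa using hM0
        · rw [max_eq_left h4]
          push_cast
          have h5 := Int.floor_le (hi i)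
          have h6 := Int.le_ceil (lo i)
          linarith [hM i]
    _ = M ^ Fintype.card ι := by simp

lemma cntr {ι : Type*} [Fintype ι] (X : Finset (ι → ℤ)) (v : ℝ) (w : ι → ℝ) (R M : ℝ)
    (hv : v ≠ 0) (hR : 0 ≤ R)
    (h : ∀ x ∈ X, ∀ i, |v * (x i : ℝ) - w i| ≤ R)
    (hM : 2 * R / |v| + 1 ≤ M) : (X.card : ℝ) ≤ M ^ Fintype.card ι := by
  have hv' : 0 < |v| := abs_pos.2 hv
  have hR' : 0 ≤ 2 * R / |v| := by positivity
  refine cnt X (fun i => w i / v - R / |v|) (fun i => w i / v + R / |v|) M (by linarith) ?_ ?_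
  · intro x hx i
    have h1 : |(x i : ℝ) - w i / v| ≤ R / |v| := by
      rw [le_div_iff₀ hv', ← abs_mul]
      have : ((x i : ℝ) - w i / v) * v = v * (x i : ℝ) - w i := by
        field_simp
      rw [this]
      exact h x hx i
    rw [abs_le] at h1
    constructor <;> linarith [h1.1, h1.2]
  · intro i
    have : w i / v + R / |v| - (w i / v - R / |v|) + 1 = 2 * R / |v| + 1 := by ring
    rw [this]
    exact hM

lemma sub_box {ι : Type*} [Fintype ι] [DecidableEq (ι → ℤ)] (X Y : Finset (ι → ℤ)) (F : Finset ℤ) (f : ℝ)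
    (hf : (F.card : ℝ) ≤ f)
    (h : ∀ x ∈ X, ∃ y ∈ Y, ∀ i, x i - y i ∈ F) :
    (X.card : ℝ) ≤ f ^ Fintype.card ι * (Y.card : ℝ) := by
  classical
  have hsub : X ⊆ Y + Fintype.piFinset (fun _ : ι => F) := by
    intro x hx
    obtain ⟨y, hy, hxy⟩ := h x hx
    rw [Finset.mem_add]
    refine ⟨y, hy, x - y, ?_, by simp⟩
    rw [Fintype.mem_piFinset]
    intro i
    exact hxy i
  have h1 : X.card ≤ Y.card * F.card ^ Fintype.card ι := by
    calc X.card ≤ (Y + Fintype.piFinset (fun _ : ι => F)).card := Finset.card_le_card hsub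
      _ ≤ Y.card * (Fintype.piFinset (fun _ : ι => F)).card := Finset.card_add_le
      _ = Y.card * F.card ^ Fintype.card ι := by
          rw [Fintype.card_piFinset]; simp
  calc (X.card : ℝ) ≤ (Y.card : ℝ) * (F.card : ℝ) ^ Fintype.card ι := by exact_mod_cast h1
    _ ≤ (Y.card : ℝ) * f ^ Fintype.card ι := by
        refine mul_le_mul_of_nonneg_left ?_ (Nat.cast_nonneg _)
        exact pow_le_pow_left₀ (Nat.cast_nonneg _) hf _
    _ = f ^ Fintype.card ι * (Y.card : ℝ) := mul_comm _ _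

end Pool.Agent.H37.HD
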