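import Pool.Agent.H82.HD.TC
import Pool.Agent.H37.HD.CNT

/-!
HD block C: FLB (rounded dilates).
-/

set_option autoImplicit false

namespace Pool.Agent.H37.HD

open Pool.Agent.H82.HD
open scoped Pointwise

lemma mem_fl {ι : Type} [Fintype ι] (c : ℝ) (A : Finset (ι → ℤ)) (x : ι → ℤ) :
    x ∈ fl c A ↔ ∃ a ∈ A, (fun i => ⌊c * (a i : ℝ)⌋) = x := by
  unfold fl
  simp only [Finset.mem_image]

lemma mem_fl_of {ι : Type} [Fintype ι] (c : ℝ) (A : Finset (ι → ℤ)) (a : ι → ℤ) (ha : a ∈ A) :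
    (fun i => ⌊c * (a i : ℝ)⌋) ∈ fl c A := (mem_fl c A _).2 ⟨a, ha, rfl⟩

lemma mem_sl {ι : Type} [Fintype ι] (u : ℝ) (A B : Finset (ι → ℤ)) (x : ι → ℤ) :
    x ∈ sl u A B ↔ ∃ a ∈ A, ∃ b ∈ B,
      (fun i => ⌊(1 - u) * (a i : ℝ) + u * (b i : ℝ)⌋) = x := by
  unfold sl
  simp only [Finset.mem_image, Finset.mem_product, Prod.exists]
  constructor
  · rintro ⟨a, b, ⟨ha, hb⟩, h⟩
    exact ⟨a, ha, b, hb, h⟩
  · rintro ⟨a, ha, b, hb, h⟩
    exact ⟨a, b, ⟨ha, hb⟩, h⟩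

/-- an integer within `R` of zero (strictly) lies in an `Icc` with few elements -/
lemma box_int (L : ℝ) (hL : 1 ≤ L) : ((Finset.Icc (-⌊L + 1⌋) ⌊L + 1⌋).card : ℝ) ≤ 2 * L + 4 := by
  rw [Int.card_Icc]
  have h0 : (0 : ℤ) ≤ ⌊L + 1⌋ := Int.floor_nonneg.2 (by linarith)
  have h3 : (((⌊L + 1⌋ + 1 - -⌊L + 1⌋).toNat : ℕ) : ℝ) = 2 * (⌊L + 1⌋ : ℝ) + 1 := by
    have : (((⌊L + 1⌋ + 1 - -⌊L + 1⌋).toNat : ℕ) : ℤ) = 2 * ⌊L + 1⌋ + 1 := by
      rw [Int.toNat_of_nonneg (by linarith)]; ring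
    exact_mod_cast congrArg (fun z : ℤ => (z : ℝ)) this
  rw [h3]
  have := Int.floor_le (L + 1)
  linarith

lemma mem_box_int (L : ℝ) (z : ℤ) (h : |(z : ℝ)| ≤ L + 1) :
    z ∈ Finset.Icc (-⌊L + 1⌋) ⌊L + 1⌋ := by
  rw [Finset.mem_Icc]
  rw [abs_le] at h
  constructor
  · have : -z ≤ ⌊L + 1⌋ := Int.le_floor.2 (by push_cast; linarith [h.1])
    linarith
  · exact Int.le_floor.2 h.2

/-- nearly the same real numbers have nearly the same floors -/
lemma floor_near (x y L : ℝ) (h : |x - y| ≤ L) : |((⌊x⌋ - ⌊y⌋ : ℤ) : ℝ)| ≤ L + 1 := by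
  have h1 := Int.floor_le x
  have h2 := Int.lt_floor_add_one x
  have h3 := Int.floor_le y
  have h4 := Int.lt_floor_add_one y
  rw [abs_le] at h ⊢
  push_cast
  constructor <;> linarith [h.1, h.2]

lemma mem01 (z : ℤ) (h0 : (-1 : ℝ) < z) (h1 : (z : ℝ) < 2) : z ∈ ({0, 1} : Finset ℤ) := by
  have h2 : (-1 : ℤ) < z := by exact_mod_cast h0
  have h3 : z < (2 : ℤ) := by exact_mod_cast h1
  have : z = 0 ∨ z = 1 := by omega
  simpa using this

lemma card01 : ((({0, 1} : Finset ℤ).card : ℕ) : ℝ) ≤ 2 := by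
  simp

theorem pf_FLB : T_FLB := by
  intro ι _ A B c d L hL hc1 hc2
  have hLinv : 0 < L⁻¹ := inv_pos.2 (by linarith)
  have hc0 : c ≠ 0 := by
    intro h
    rw [h, abs_zero] at hc1
    linarith
  have hcpos : 0 < |c| := abs_pos.2 hc0
  refine ⟨?_, ?_, ?_, ?_, ?_, ?_, ?_, ?_, ?_⟩
  · -- (1)
    classical
    have := fib A (fl c A) (fun a i => ⌊c * (a i : ℝ)⌋) ((L + 2) ^ Fintype.card ι)
      (fun a ha => mem_fl_of c A a ha) (fun y _ => ?_)
    · rw [mul_comm] at this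
      exact this
    · refine cntr _ c (fun i => (y i : ℝ) + 1 / 2) (1 / 2) (L + 2) hc0 (by norm_num) ?_ ?_
      · intro x hx i
        rw [Finset.mem_filter] at hx
        have h1 : ⌊c * (x i : ℝ)⌋ = y i := congrFun hx.2 i
        have h2 := Int.floor_le (c * (x i : ℝ))
        have h3 := Int.lt_floor_add_one (c * (x i : ℝ))
        rw [h1] at h2 h3
        rw [abs_le]
        constructor <;> linarith
      · have : 2 * (1 / 2 : ℝ) / |c| ≤ L := by
          rw [div_le_iff₀ hcpos]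
          have : L * L⁻¹ ≤ L * |c| := mul_le_mul_of_nonneg_left hc1 (by linarith)
          rw [mul_inv_cancel₀ (by linarith)] at this
          linarith
        linarith
  · -- (2)
    exact Finset.card_image_le
  · -- (3)
    refine (sub_box _ (fl c (A - B)) {0, 1} 2 card01 ?_).trans ?_
    · intro x hx
      rw [Finset.mem_sub] at hx
      obtain ⟨p, hp, q, hq, rfl⟩ := hx
      rw [mem_fl] at hp hq
      obtain ⟨a, ha, rfl⟩ := hp
      obtain ⟨b, hb, rfl⟩ := hq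
      refine ⟨_, mem_fl_of c (A - B) (a - b) (Finset.sub_mem_sub ha hb), ?_⟩
      intro i
      apply mem01
      · simp only [Pi.sub_apply]
        push_cast
        have h1 := Int.floor_le (c * (a i : ℝ))
        have h2 := Int.lt_floor_add_one (c * (a i : ℝ))
        have h3 := Int.floor_le (c * (b i : ℝ))
        have h4 := Int.lt_floor_add_one (c * (b i : ℝ))
        have h5 := Int.floor_le (c * ((a i : ℝ) - (b i : ℝ)))
        have h6 := Int.lt_floor_add_one (c * ((a i : ℝ) - (b i : ℝ)))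
        linarith
      · simp only [Pi.sub_apply]
        push_cast
        have h1 := Int.floor_le (c * (a i : ℝ))
        have h2 := Int.lt_floor_add_one (c * (a i : ℝ))
        have h3 := Int.floor_le (c * (b i : ℝ))
        have h4 := Int.lt_floor_add_one (c * (b i : ℝ))
        have h5 := Int.floor_le (c * ((a i : ℝ) - (b i : ℝ)))
        have h6 := Int.lt_floor_add_one (c * ((a i : ℝ) - (b i : ℝ)))
        linarith
    · refine mul_le_mul_of_nonneg_left ?_ (by positivity)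
      exact_mod_cast Finset.card_image_le
  · -- (4)
    refine sub_box _ _ (Finset.Icc (-⌊L + 1⌋) ⌊L + 1⌋) (2 * L + 4) (box_int L hL) ?_
    intro x hx
    rw [Finset.mem_sub] at hx
    obtain ⟨a, ha, q, hq, rfl⟩ := hx
    rw [mem_fl] at hq
    obtain ⟨b, hb, rfl⟩ := hq
    refine ⟨_, Finset.sub_mem_sub ha (mem_fl_of c _ _ (mem_fl_of d B b hb)), ?_⟩
    intro i
    apply mem_box_int
    simp only [Pi.sub_apply]
    have h1 : |c * (⌊d * (b i : ℝ)⌋ : ℝ) - c * d * (b i : ℝ)| ≤ L := by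
      have : c * (⌊d * (b i : ℝ)⌋ : ℝ) - c * d * (b i : ℝ) =
          c * ((⌊d * (b i : ℝ)⌋ : ℝ) - d * (b i : ℝ)) := by ring
      rw [this, abs_mul]
      have h2 := Int.floor_le (d * (b i : ℝ))
      have h3 := Int.lt_floor_add_one (d * (b i : ℝ))
      have h4 : |(⌊d * (b i : ℝ)⌋ : ℝ) - d * (b i : ℝ)| ≤ 1 := by
        rw [abs_le]; constructor <;> linarith
      calc |c| * |(⌊d * (b i : ℝ)⌋ : ℝ) - d * (b i : ℝ)| ≤ |c| * 1 :=
            mul_le_mul_of_nonneg_left h4 (abs_nonneg _)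
        _ ≤ L := by linarith
    have h2 := floor_near _ _ L h1
    have h3 : ((a i - ⌊c * d * (b i : ℝ)⌋ - (a i - ⌊c * (⌊d * (b i : ℝ)⌋ : ℝ)⌋) : ℤ) : ℝ) =
        ((⌊c * (⌊d * (b i : ℝ)⌋ : ℝ)⌋ - ⌊c * d * (b i : ℝ)⌋ : ℤ) : ℝ) := by
      push_cast; ring
    rw [h3]
    exact h2
  · -- (5)
    refine sub_box _ _ (Finset.Icc (-⌊L + 1⌋) ⌊L + 1⌋) (2 * L + 4) (box_int L hL) ?_
    intro x hx
    rw [Finset.mem_sub] at hx
    obtain ⟨a, ha, q, hq, rfl⟩ := hx
    rw [mem_fl] at hq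
    obtain ⟨q', hq', rfl⟩ := hq
    rw [mem_fl] at hq'
    obtain ⟨b, hb, rfl⟩ := hq'
    refine ⟨_, Finset.sub_mem_sub ha (mem_fl_of (c * d) B b hb), ?_⟩
    intro i
    apply mem_box_int
    simp only [Pi.sub_apply]
    have h1 : |c * d * (b i : ℝ) - c * (⌊d * (b i : ℝ)⌋ : ℝ)| ≤ L := by
      have : c * d * (b i : ℝ) - c * (⌊d * (b i : ℝ)⌋ : ℝ) =
          c * (d * (b i : ℝ) - (⌊d * (b i : ℝ)⌋ : ℝ)) := by ring
      rw [this, abs_mul]
      have h2 := Int.floor_le (d * (b i : ℝ))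
      have h3 := Int.lt_floor_add_one (d * (b i : ℝ))
      have h4 : |d * (b i : ℝ) - (⌊d * (b i : ℝ)⌋ : ℝ)| ≤ 1 := by
        rw [abs_le]; constructor <;> linarith
      calc |c| * |d * (b i : ℝ) - (⌊d * (b i : ℝ)⌋ : ℝ)| ≤ |c| * 1 :=
            mul_le_mul_of_nonneg_left h4 (abs_nonneg _)
        _ ≤ L := by linarith
    have h2 := floor_near _ _ L h1
    have h3 : ((a i - ⌊c * (⌊d * (b i : ℝ)⌋ : ℝ)⌋ - (a i - ⌊c * d * (b i : ℝ)⌋) : ℤ) : ℝ) =
        ((⌊c * d * (b i : ℝ)⌋ - ⌊c * (⌊d * (b i : ℝ)⌋ : ℝ)⌋ : ℤ) : ℝ) := by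
      push_cast; ring
    rw [h3]
    exact h2
  · -- (6)
    refine sub_box _ _ ({0, -1} : Finset ℤ) 2 (by simp) ?_
    intro x hx
    rw [Finset.mem_sub] at hx
    obtain ⟨a, ha, q, hq, rfl⟩ := hx
    rw [mem_fl] at hq
    obtain ⟨b, hb, rfl⟩ := hq
    refine ⟨_, Finset.sub_mem_sub ha
      (Finset.add_mem_add (mem_fl_of c B b hb) (mem_fl_of d B b hb)), ?_⟩
    intro i
    simp only [Pi.sub_apply, Pi.add_apply]
    have h1 := Int.floor_le (c * (b i : ℝ))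
    have h2 := Int.lt_floor_add_one (c * (b i : ℝ))
    have h3 := Int.floor_le (d * (b i : ℝ))
    have h4 := Int.lt_floor_add_one (d * (b i : ℝ))
    have h5 := Int.floor_le ((c + d) * (b i : ℝ))
    have h6 := Int.lt_floor_add_one ((c + d) * (b i : ℝ))
    have h7 : ⌊(c + d) * (b i : ℝ)⌋ - (⌊c * (b i : ℝ)⌋ + ⌊d * (b i : ℝ)⌋) ∈
        ({0, 1} : Finset ℤ) := by
      apply mem01 <;> push_cast <;> linarith
    simp only [Finset.mem_insert, Finset.mem_singleton] at h7 ⊢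
    omega
  · -- (7)
    refine sub_box _ _ ({0, 1} : Finset ℤ) 2 card01 ?_
    intro x hx
    rw [Finset.mem_sub] at hx
    obtain ⟨a, ha, q, hq, rfl⟩ := hx
    rw [mem_fl] at hq
    obtain ⟨b, hb, rfl⟩ := hq
    refine ⟨_, Finset.add_mem_add ha (mem_fl_of c B b hb), ?_⟩
    intro i
    simp only [Pi.sub_apply, Pi.add_apply]
    have h1 := Int.floor_le (c * (b i : ℝ))
    have h2 := Int.lt_floor_add_one (c * (b i : ℝ))
    have h5 := Int.floor_le ((-c) * (b i : ℝ))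
    have h6 := Int.lt_floor_add_one ((-c) * (b i : ℝ))
    apply mem01 <;> push_cast <;> linarith
  · -- (8)
    refine sub_box _ _ ({0, -1} : Finset ℤ) 2 (by simp) ?_
    intro x hx
    rw [Finset.mem_add] at hx
    obtain ⟨p, hp, q, hq, rfl⟩ := hx
    rw [mem_fl] at hp hq
    obtain ⟨a, ha, rfl⟩ := hp
    obtain ⟨b, hb, rfl⟩ := hq
    refine ⟨_, (mem_sl d A B _).2 ⟨a, ha, b, hb, rfl⟩, ?_⟩
    intro i
    simp only [Pi.add_apply]
    have h1 := Int.floor_le ((1 - d) * (a i : ℝ))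
    have h2 := Int.lt_floor_add_one ((1 - d) * (a i : ℝ))
    have h3 := Int.floor_le (d * (b i : ℝ))
    have h4 := Int.lt_floor_add_one (d * (b i : ℝ))
    have h5 := Int.floor_le ((1 - d) * (a i : ℝ) + d * (b i : ℝ))
    have h6 := Int.lt_floor_add_one ((1 - d) * (a i : ℝ) + d * (b i : ℝ))
    have h7 : ⌊(1 - d) * (a i : ℝ) + d * (b i : ℝ)⌋ -
        (⌊(1 - d) * (a i : ℝ)⌋ + ⌊d * (b i : ℝ)⌋) ∈ ({0, 1} : Finset ℤ) := by
      apply mem01 <;> push_cast <;> linarith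
    simp only [Finset.mem_insert, Finset.mem_singleton] at h7 ⊢
    omega
  · -- (9)
    ext x
    rw [mem_fl]
    constructor
    · rintro ⟨a, ha, rfl⟩
      have : (fun i => ⌊(1 : ℝ) * (a i : ℝ)⌋) = a := by
        funext i
        rw [one_mul, Int.floor_intCast]
      rw [this]
      exact ha
    · intro hx
      refine ⟨x, hx, ?_⟩
      funext i
      rw [one_mul, Int.floor_intCast]

end Pool.Agent.H37.HD
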