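import Pool.Agent.H82.HD.TC
import Pool.Agent.H37.HD.CNT

/-!
HD block C: PTH (paths of length three give small slices).
-/

set_option autoImplicit false

namespace Pool.Agent.H37.HD

open Pool.Agent.H82.HD

open scoped Classical in
/-- the set of all (s, (b', a')) near a triple of points of `Y` is small -/
lemma pth_fibre {ι : Type} [Fintype ι] (z1 z2 z3 : ι → ℤ) (E L u : ℝ) (hE : 1 ≤ E) (hL : 1 ≤ L)
    (hu : L⁻¹ ≤ |u|) (hu1 : L⁻¹ ≤ |1 - u|) (ab : (ι → ℤ) → (ι → ℤ) × (ι → ℤ))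
    (S : Finset ((ι → ℤ) × ((ι → ℤ) × (ι → ℤ))))
    (hs : ∀ σ ∈ S, ∀ i, σ.1 i = ⌊(1 - u) * ((ab σ.1).1 i : ℝ) + u * ((ab σ.1).2 i : ℝ)⌋)
    (h1 : ∀ σ ∈ S, ∀ i, |(1 - u) * ((ab σ.1).1 i : ℝ) + u * (σ.2.1 i : ℝ) - z1 i| ≤ E)
    (h2 : ∀ σ ∈ S, ∀ i, |(1 - u) * (σ.2.2 i : ℝ) + u * (σ.2.1 i : ℝ) - z2 i| ≤ E)
    (h3 : ∀ σ ∈ S, ∀ i, |(1 - u) * (σ.2.2 i : ℝ) + u * ((ab σ.1).2 i : ℝ) - z3 i| ≤ E) :
    (S.card : ℝ) ≤ (10 * E * L) ^ (3 * Fintype.card ι) := by
  have hLpos : (0 : ℝ) < L := by linarith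
  have hLinv : 0 < L⁻¹ := inv_pos.2 hLpos
  have hu0 : u ≠ 0 := by
    intro h; rw [h, abs_zero] at hu; linarith
  have hu10 : 1 - u ≠ 0 := by
    intro h; rw [h, abs_zero] at hu1; linarith
  have hEL : (1 : ℝ) ≤ E * L := by nlinarith
  have key : ∀ v : ℝ, L⁻¹ ≤ |v| → v ≠ 0 → 2 * E / |v| + 1 ≤ 10 * E * L := by
    intro v hv hv0
    have hvp : 0 < |v| := abs_pos.2 hv0
    have : 2 * E / |v| ≤ 2 * E * L := by
      rw [div_le_iff₀ hvp]
      have : 1 ≤ L * |v| := by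
        have := mul_le_mul_of_nonneg_left hv hLpos.le
        rwa [mul_inv_cancel₀ hLpos.ne'] at this
      nlinarith
    nlinarith
  -- the values of s
  have hA : ((S.image Prod.fst).card : ℝ) ≤ (10 * E * L) ^ Fintype.card ι := by
    refine cntr _ 1 (fun i => (z1 i : ℝ) - z2 i + z3 i) (3 * E + 1) _ one_ne_zero (by linarith)
      ?_ ?_
    · intro s hs'
      rw [Finset.mem_image] at hs'
      obtain ⟨σ, hσ, rfl⟩ := hs'
      intro i
      have e0 := hs σ hσ i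
      have e1 := h1 σ hσ i
      have e2 := h2 σ hσ i
      have e3 := h3 σ hσ i
      have f1 := Int.floor_le ((1 - u) * ((ab σ.1).1 i : ℝ) + u * ((ab σ.1).2 i : ℝ))
      have f2 := Int.lt_floor_add_one ((1 - u) * ((ab σ.1).1 i : ℝ) + u * ((ab σ.1).2 i : ℝ))
      rw [← e0] at f1 f2
      rw [abs_le] at e1 e2 e3 ⊢
      constructor <;> linarith [e1.1, e1.2, e2.1, e2.2, e3.1, e3.2]
    · rw [abs_one]
      nlinarith
  -- for every s, the pairs
  have hB : ∀ s ∈ S.image Prod.fst, (((S.filter fun σ => σ.1 = s).card : ℕ) : ℝ) ≤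
      (10 * E * L) ^ Fintype.card ι * (10 * E * L) ^ Fintype.card ι := by
    intro s _
    have hBb : (((S.filter fun σ => σ.1 = s).image fun σ => σ.2.1).card : ℝ) ≤
        (10 * E * L) ^ Fintype.card ι := by
      refine cntr _ u (fun i => (z1 i : ℝ) - (1 - u) * ((ab s).1 i : ℝ)) E _ hu0 (by linarith)
        ?_ (key u hu hu0)
      intro x hx i
      rw [Finset.mem_image] at hx
      obtain ⟨σ, hσ, rfl⟩ := hx
      rw [Finset.mem_filter] at hσ
      have e1 := h1 σ hσ.1 i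
      rw [hσ.2] at e1
      have : u * (σ.2.1 i : ℝ) - ((z1 i : ℝ) - (1 - u) * ((ab s).1 i : ℝ)) =
        (1 - u) * ((ab s).1 i : ℝ) + u * (σ.2.1 i : ℝ) - z1 i := by ring
      rw [this]
      exact e1
    have hBa : (((S.filter fun σ => σ.1 = s).image fun σ => σ.2.2).card : ℝ) ≤
        (10 * E * L) ^ Fintype.card ι := by
      refine cntr _ (1 - u) (fun i => (z3 i : ℝ) - u * ((ab s).2 i : ℝ)) E _ hu10 (by linarith)
        ?_ (key (1 - u) hu1 hu10)
      intro x hx i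
      rw [Finset.mem_image] at hx
      obtain ⟨σ, hσ, rfl⟩ := hx
      rw [Finset.mem_filter] at hσ
      have e1 := h3 σ hσ.1 i
      rw [hσ.2] at e1
      have : (1 - u) * (σ.2.2 i : ℝ) - ((z3 i : ℝ) - u * ((ab s).2 i : ℝ)) =
        (1 - u) * (σ.2.2 i : ℝ) + u * ((ab s).2 i : ℝ) - z3 i := by ring
      rw [this]
      exact e1
    have hinj : (S.filter fun σ => σ.1 = s).card ≤
        (((S.filter fun σ => σ.1 = s).image fun σ => σ.2.1) ×ˢ
          ((S.filter fun σ => σ.1 = s).image fun σ => σ.2.2)).card := by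
      refine Finset.card_le_card_of_injOn (fun σ => (σ.2.1, σ.2.2)) ?_ ?_
      · intro σ hσ
        simp only [Finset.coe_product, Finset.coe_image, Set.mem_prod]
        exact ⟨⟨σ, hσ, rfl⟩, ⟨σ, hσ, rfl⟩⟩
      · intro σ hσ τ hτ h
        have hσ' := (Finset.mem_filter.1 hσ).2
        have hτ' := (Finset.mem_filter.1 hτ).2
        simp only [Prod.mk.injEq] at h
        refine Prod.ext (hσ'.trans hτ'.symm) (Prod.ext h.1 h.2)
    rw [Finset.card_product] at hinj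
    calc (((S.filter fun σ => σ.1 = s).card : ℕ) : ℝ) ≤
        (((S.filter fun σ => σ.1 = s).image fun σ => σ.2.1).card : ℝ) *
          (((S.filter fun σ => σ.1 = s).image fun σ => σ.2.2).card : ℝ) := by exact_mod_cast hinj
      _ ≤ _ := mul_le_mul hBb hBa (Nat.cast_nonneg _) (by positivity)
  have hC := fib S (S.image Prod.fst) Prod.fst _ (fun σ hσ => Finset.mem_image_of_mem _ hσ) hB
  calc (S.card : ℝ) ≤ ((S.image Prod.fst).card : ℝ) *
        ((10 * E * L) ^ Fintype.card ι * (10 * E * L) ^ Fintype.card ι) := hC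
    _ ≤ (10 * E * L) ^ Fintype.card ι *
        ((10 * E * L) ^ Fintype.card ι * (10 * E * L) ^ Fintype.card ι) :=
          mul_le_mul_of_nonneg_right hA (by positivity)
    _ = (10 * E * L) ^ (3 * Fintype.card ι) := by
        rw [pow_mul']
        ring

theorem pf_PTH : T_PTH := by
  classical
  intro ι _ A B Y A' B' G N k E L u hN hk hE hL hu hu1 hY hG hP
  -- choose near points
  have hG' : ∀ e : (ι → ℤ) × (ι → ℤ), ∃ z : ι → ℤ, e ∈ G → z ∈ Y ∧
      ∀ i, |(1 - u) * (e.1 i : ℝ) + u * (e.2 i : ℝ) - z i| ≤ E := by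
    intro e
    by_cases he : e ∈ G
    · obtain ⟨z, hz, hz'⟩ := hG e he
      exact ⟨z, fun _ => ⟨hz, hz'⟩⟩
    · exact ⟨0, fun h => absurd h he⟩
  choose ζ hζ using hG'
  -- choose representatives
  have hS : ∀ s : ι → ℤ, ∃ p : (ι → ℤ) × (ι → ℤ), s ∈ sl u A' B' → p.1 ∈ A' ∧ p.2 ∈ B' ∧
      ∀ i, s i = ⌊(1 - u) * (p.1 i : ℝ) + u * (p.2 i : ℝ)⌋ := by
    intro s
    by_cases hs : s ∈ sl u A' B'
    · have hs' := hs
      unfold sl at hs'
      rw [Finset.mem_image] at hs'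
      obtain ⟨p, hp, hps⟩ := hs'
      rw [Finset.mem_product] at hp
      exact ⟨p, fun _ => ⟨hp.1, hp.2, fun i => (congrFun hps i).symm⟩⟩
    · exact ⟨0, fun h => absurd h hs⟩
  choose ab hab using hS
  set paths : (ι → ℤ) → Finset ((ι → ℤ) × (ι → ℤ)) := fun s =>
    (B ×ˢ A).filter fun p => ((ab s).1, p.1) ∈ G ∧ (p.2, p.1) ∈ G ∧ (p.2, (ab s).2) ∈ G
    with hpaths
  set S : Finset ((ι → ℤ) × ((ι → ℤ) × (ι → ℤ))) :=
    ((sl u A' B') ×ˢ (B ×ˢ A)).filter fun σ => σ.2 ∈ paths σ.1 with hSdef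
  -- lower bound
  have hlow : ((sl u A' B').card : ℝ) * (N ^ 2 / k) ≤ S.card := by
    have h1 : (S.card : ℝ) = ∑ s ∈ sl u A' B', (((S.filter fun σ => σ.1 = s).card : ℕ) : ℝ) := by
      rw [Finset.card_eq_sum_card_fiberwise (f := Prod.fst) (t := sl u A' B')]
      · push_cast; rfl
      · intro σ hσ
        have := (Finset.mem_filter.1 hσ).1
        exact (Finset.mem_product.1 this).1
    rw [h1]
    have h2 : ((sl u A' B').card : ℝ) * (N ^ 2 / k) = ∑ _s ∈ sl u A' B', (N ^ 2 / k) := by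
      simp
    rw [h2]
    refine Finset.sum_le_sum fun s hs => ?_
    obtain ⟨ha, hb, _⟩ := hab s hs
    have h3 := hP _ ha _ hb
    have h4 : (paths s).card ≤ (S.filter fun σ => σ.1 = s).card := by
      refine Finset.card_le_card_of_injOn (fun p => (s, p)) ?_ ?_
      · intro p hp
        have hp' : p ∈ B ×ˢ A := (Finset.mem_filter.1 hp).1
        refine Finset.mem_coe.2 (Finset.mem_filter.2 ⟨?_, rfl⟩)
        rw [hSdef, Finset.mem_filter, Finset.mem_product]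
        exact ⟨⟨hs, hp'⟩, hp⟩
      · intro p _ q _ h
        exact (Prod.mk.inj h).2
    have h5 : ((paths s).card : ℝ) ≤ (((S.filter fun σ => σ.1 = s).card : ℕ) : ℝ) := by
      exact_mod_cast h4
    rw [div_le_iff₀ hk]
    calc N ^ 2 ≤ k * ((paths s).card : ℝ) := h3
      _ ≤ k * (((S.filter fun σ => σ.1 = s).card : ℕ) : ℝ) :=
          mul_le_mul_of_nonneg_left h5 hk.le
      _ = _ := mul_comm _ _
  -- upper bound
  have hup : (S.card : ℝ) ≤ ((Y ×ˢ (Y ×ˢ Y)).card : ℝ) *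
      (10 * E * L) ^ (3 * Fintype.card ι) := by
    have hmem : ∀ σ ∈ S, σ.1 ∈ sl u A' B' ∧ ((ab σ.1).1, σ.2.1) ∈ G ∧ (σ.2.2, σ.2.1) ∈ G ∧
        (σ.2.2, (ab σ.1).2) ∈ G := by
      intro σ hσ
      rw [hSdef, Finset.mem_filter, Finset.mem_product] at hσ
      refine ⟨hσ.1.1, ?_⟩
      have := hσ.2
      rw [hpaths] at this
      simp only [Finset.mem_filter] at this
      exact this.2
    refine fib S (Y ×ˢ (Y ×ˢ Y))
      (fun σ => (ζ ((ab σ.1).1, σ.2.1), (ζ (σ.2.2, σ.2.1), ζ (σ.2.2, (ab σ.1).2)))) _ ?_ ?_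
    · intro σ hσ
      obtain ⟨_, g1, g2, g3⟩ := hmem σ hσ
      simp only [Finset.mem_product]
      exact ⟨(hζ _ g1).1, (hζ _ g2).1, (hζ _ g3).1⟩
    · intro z _
      refine pth_fibre z.1 z.2.1 z.2.2 E L u hE hL hu hu1 ab _ ?_ ?_ ?_ ?_
      · intro σ hσ i
        have hσ1 := (Finset.mem_filter.1 hσ).1
        exact (hab σ.1 (hmem σ hσ1).1).2.2 i
      · intro σ hσ i
        have hσ1 := (Finset.mem_filter.1 hσ).1
        have hσ2 := (Finset.mem_filter.1 hσ).2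
        have := (hζ _ (hmem σ hσ1).2.1).2 i
        rw [← hσ2]
        exact this
      · intro σ hσ i
        have hσ1 := (Finset.mem_filter.1 hσ).1
        have hσ2 := (Finset.mem_filter.1 hσ).2
        have := (hζ _ (hmem σ hσ1).2.2.1).2 i
        rw [← hσ2]
        exact this
      · intro σ hσ i
        have hσ1 := (Finset.mem_filter.1 hσ).1
        have hσ2 := (Finset.mem_filter.1 hσ).2
        have := (hζ _ (hmem σ hσ1).2.2.2).2 i
        rw [← hσ2]
        exact this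
  have hY3 : ((Y ×ˢ (Y ×ˢ Y)).card : ℝ) ≤ N ^ 3 := by
    rw [Finset.card_product, Finset.card_product]
    push_cast
    have h0 : (0 : ℝ) ≤ Y.card := Nat.cast_nonneg _
    calc (Y.card : ℝ) * ((Y.card : ℝ) * (Y.card : ℝ)) = (Y.card : ℝ) ^ 3 := by ring
      _ ≤ N ^ 3 := pow_le_pow_left₀ h0 hY 3
  have hEL : (0 : ℝ) ≤ (10 * E * L) ^ (3 * Fintype.card ι) := by positivity
  have h1 : ((sl u A' B').card : ℝ) * (N ^ 2 / k) ≤ N ^ 3 * (10 * E * L) ^ (3 * Fintype.card ι) :=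
    hlow.trans (hup.trans (mul_le_mul_of_nonneg_right hY3 hEL))
  have hN2 : 0 < N ^ 2 := by positivity
  have h2 : ((sl u A' B').card : ℝ) * N ^ 2 ≤
      (k * (10 * E * L) ^ (3 * Fintype.card ι) * N) * N ^ 2 := by
    have h3 := mul_le_mul_of_nonneg_right h1 hk.le
    have h4 : ((sl u A' B').card : ℝ) * (N ^ 2 / k) * k = ((sl u A' B').card : ℝ) * N ^ 2 := by
      field_simp
    rw [h4] at h3
    calc _ ≤ _ := h3
      _ = _ := by ring
  exact le_of_mul_le_mul_right h2 hN2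

end Pool.Agent.H37.HD
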